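import Pool.Agent.helper68.SF.SpecW

/-!
# Module sw:KB (helper28): bounds for the kernels
-/

set_option autoImplicit false

namespace SF

open scoped ContDiff

/-- `1 / r` -/
noncomputable def KB_q (x y : ℝ) : ℝ := (√(x ^ 2 + y ^ 2))⁻¹

theorem KB_q_pos {x y : ℝ} (hy : 0 < y) : 0 < KB_q x y := by
  rw [KB_q]; positivity

theorem KB_q_sq {x y : ℝ} (hy : 0 < y) : KB_q x y ^ 2 * (x ^ 2 + y ^ 2) = 1 := by
  rw [KB_q, inv_pow, Real.sq_sqrt (by positivity)]
  have : x ^ 2 + y ^ 2 ≠ 0 := by positivity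
  field_simp

theorem KB_qx {x y : ℝ} (hy : 0 < y) :
    HasDerivAt (fun t => KB_q t y) (-x * KB_q x y ^ 3) x := by
  have h0 : x ^ 2 + y ^ 2 ≠ 0 := by positivity
  have h1 : HasDerivAt (fun t : ℝ => t ^ 2 + y ^ 2) (2 * x) x := by
    simpa using ((hasDerivAt_pow 2 x).add_const (y ^ 2))
  have h2 := (h1.sqrt h0).inv (by positivity)
  refine h2.congr_deriv ?_
  rw [KB_q]
  have h3 : √(x ^ 2 + y ^ 2) ≠ 0 := by positivity
  field_simp

theorem KB_qy {x y : ℝ} (hy : 0 < y) :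
    HasDerivAt (fun t => KB_q x t) (-y * KB_q x y ^ 3) y := by
  have h0 : x ^ 2 + y ^ 2 ≠ 0 := by positivity
  have h1 : HasDerivAt (fun t : ℝ => x ^ 2 + t ^ 2) (2 * y) y := by
    simpa using ((hasDerivAt_pow 2 y).const_add (x ^ 2))
  have h2 := (h1.sqrt h0).inv (by positivity)
  refine h2.congr_deriv ?_
  rw [KB_q]
  have h3 : √(x ^ 2 + y ^ 2) ≠ 0 := by positivity
  field_simp

theorem KB_c1 {x y : ℝ} (hy : 0 < y) : 1 - (x * KB_q x y) ^ 2 = y ^ 2 * KB_q x y ^ 2 := by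
  have h := KB_q_sq (x := x) hy
  nlinarith

theorem KB_c2 {x y : ℝ} (hy : 0 < y) : |x * KB_q x y| ≤ 1 := by
  rw [abs_le_one_iff_mul_self_le_one]
  have h := KB_c1 (x := x) hy
  have h2 : 0 ≤ y ^ 2 * KB_q x y ^ 2 := by positivity
  nlinarith

/-- the derivative with respect to `x` -/
theorem KB_GX (K : ℝ) {y : ℝ} (hy : 0 < y) (m : ℕ) (φ : ℝ → ℝ) (φ' : ℝ) (x : ℝ)
    (h : HasDerivAt φ φ' (x * KB_q x y)) :
    HasDerivAt (fun t => K * KB_q t y ^ (m + 1) * φ (t * KB_q t y))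
      (K * KB_q x y ^ (m + 2) * (-((m : ℝ) + 1) * (x * KB_q x y) * φ (x * KB_q x y) +
        (1 - (x * KB_q x y) ^ 2) * φ')) x := by
  have h1 := KB_qx (x := x) hy
  have h2 : HasDerivAt (fun t => t * KB_q t y) (1 * KB_q x y + x * (-x * KB_q x y ^ 3)) x :=
    (hasDerivAt_id x).mul h1
  have h3 := h.comp x h2
  have h4 := ((h1.pow (m + 1)).const_mul K).mul h3
  refine h4.congr_deriv ?_
  simp only [Function.comp_apply, Nat.add_sub_cancel, Pi.pow_apply]
  push_cast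
  ring

theorem KB_open : IsOpen {p : ℝ × ℝ | 0 < p.1} := isOpen_lt continuous_const continuous_fst

theorem KB_par {Φ : ℝ × ℝ → ℝ} (h : ContDiffOn ℝ ∞ Φ {p | 0 < p.1}) (v : ℝ × ℝ) :
    ContDiffOn ℝ ∞ (fun p => fderiv ℝ Φ p v) {p | 0 < p.1} :=
  (h.fderiv_of_isOpen KB_open (by simp)).clm_apply contDiffOn_const

theorem KB_fd {Φ : ℝ × ℝ → ℝ} (h : ContDiffOn ℝ ∞ Φ {p | 0 < p.1}) {A : ℝ} (hA : 0 < A) (c : ℝ) :
    HasFDerivAt Φ (fderiv ℝ Φ (A, c)) (A, c) :=
  ((h.contDiffAt (KB_open.mem_nhds (show (A, c) ∈ {p : ℝ × ℝ | 0 < p.1} from hA))).differentiableAt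
    (by simp)).hasFDerivAt

theorem KB_d2 {Φ : ℝ × ℝ → ℝ} (h : ContDiffOn ℝ ∞ Φ {p | 0 < p.1}) {A : ℝ} (hA : 0 < A) (c : ℝ) :
    HasDerivAt (fun t => Φ (A, t)) (fderiv ℝ Φ (A, c) (0, 1)) c :=
  (KB_fd h hA c).comp_hasDerivAt c ((hasDerivAt_const c A).prodMk (hasDerivAt_id c))

theorem KB_d1 {Φ : ℝ × ℝ → ℝ} (h : ContDiffOn ℝ ∞ Φ {p | 0 < p.1}) {A : ℝ} (hA : 0 < A) (c : ℝ) :
    HasDerivAt (fun t => Φ (t, c)) (fderiv ℝ Φ (A, c) (1, 0)) A :=
  (KB_fd h hA c).comp_hasDerivAt A ((hasDerivAt_id A).prodMk (hasDerivAt_const A c))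

theorem KB_sym {Φ : ℝ × ℝ → ℝ} (h : ContDiffOn ℝ ∞ Φ {p | 0 < p.1}) {A : ℝ} (hA : 0 < A) (c : ℝ)
    (v w : ℝ × ℝ) :
    fderiv ℝ (fun p => fderiv ℝ Φ p v) (A, c) w = fderiv ℝ (fun p => fderiv ℝ Φ p w) (A, c) v := by
  have h1 : ContDiffAt ℝ ∞ Φ (A, c) :=
    h.contDiffAt (KB_open.mem_nhds (show (A, c) ∈ {p : ℝ × ℝ | 0 < p.1} from hA))
  have h2 : DifferentiableAt ℝ (fderiv ℝ Φ) (A, c) :=
    (h1.fderiv_right (m := ∞) (by simp)).differentiableAt (by simp)
  have h3 : ∀ u : ℝ × ℝ, fderiv ℝ (fun p => fderiv ℝ Φ p u) (A, c) =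
      (fderiv ℝ (fderiv ℝ Φ) (A, c)).flip u := by
    intro u
    rw [fderiv_clm_apply h2 (differentiableAt_const u)]
    simp
  have h4 : IsSymmSndFDerivAt ℝ Φ (A, c) := h1.isSymmSndFDerivAt (by
    simp only [minSmoothness_of_isRCLikeNormedField]
    have h5 : ((2 : ℕ∞) : WithTop ℕ∞) ≤ ((⊤ : ℕ∞) : WithTop ℕ∞) := WithTop.coe_le_coe.2 le_top
    exact h5)
  rw [h3 v, h3 w, ContinuousLinearMap.flip_apply, ContinuousLinearMap.flip_apply]
  exact h4 w v

theorem KB_A {s y : ℝ} (hy : 0 < y) :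
    HasDerivAt (fun t => Real.exp (2 * s) / (25 * t)) (-(Real.exp (2 * s) / (25 * y)) / y) y := by
  have h1 : HasDerivAt (fun t : ℝ => 25 * t) 25 y := by
    simpa using (hasDerivAt_id y).const_mul (25 : ℝ)
  have h2 := (hasDerivAt_const y (Real.exp (2 * s))).div h1 (by positivity)
  refine h2.congr_deriv ?_
  field_simp
  ring

/-- the derivative with respect to `y` -/
theorem KB_GY {Φ : ℝ × ℝ → ℝ} (h : ContDiffOn ℝ ∞ Φ {p | 0 < p.1}) (K s x : ℝ) {y : ℝ}
    (hy : 0 < y) :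
    HasDerivAt (fun t => K * √t * KB_q x t * Φ (Real.exp (2 * s) / (25 * t), x * KB_q x t))
      (K * √y * y⁻¹ * KB_q x y *
        (Φ (Real.exp (2 * s) / (25 * y), x * KB_q x y) / 2 -
          (1 - (x * KB_q x y) ^ 2) * Φ (Real.exp (2 * s) / (25 * y), x * KB_q x y) -
          (Real.exp (2 * s) / (25 * y)) *
            fderiv ℝ Φ (Real.exp (2 * s) / (25 * y), x * KB_q x y) (1, 0) -
          (x * KB_q x y) * (1 - (x * KB_q x y) ^ 2) *
            fderiv ℝ Φ (Real.exp (2 * s) / (25 * y), x * KB_q x y) (0, 1))) y := by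
  set A : ℝ := Real.exp (2 * s) / (25 * y) with hA
  have hA0 : 0 < A := by positivity
  have h1 := KB_qy (x := x) hy
  have h2 : HasDerivAt (fun t => x * KB_q x t) (x * (-y * KB_q x y ^ 3)) y := h1.const_mul x
  have h3 := (KB_fd h hA0 (x * KB_q x y)).comp_hasDerivAt y ((KB_A (s := s) hy).prodMk h2)
  have h4 : fderiv ℝ Φ (A, x * KB_q x y) (-A / y, x * (-y * KB_q x y ^ 3)) =
      -A / y * fderiv ℝ Φ (A, x * KB_q x y) (1, 0) +
      x * (-y * KB_q x y ^ 3) * fderiv ℝ Φ (A, x * KB_q x y) (0, 1) := by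
    have h5 : ((-A / y, x * (-y * KB_q x y ^ 3)) : ℝ × ℝ) =
        (-A / y) • (1, 0) + (x * (-y * KB_q x y ^ 3)) • (0, 1) := by
      simp
    rw [h5, map_add, map_smul, map_smul, smul_eq_mul, smul_eq_mul]
  have h6 : HasDerivAt (fun t => K * √t) (K * (√y / (2 * y))) y := by
    have h7 := (Real.hasDerivAt_sqrt hy.ne').const_mul K
    refine h7.congr_deriv ?_
    have h8 : √y * √y = y := Real.mul_self_sqrt hy.le
    have h9 : √y ≠ 0 := by positivity
    rw [show (1 : ℝ) / (2 * √y) = √y / (2 * y) by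
      field_simp
      nlinarith]
  have h10 := (h6.mul h1).mul h3
  refine h10.congr_deriv ?_
  simp only [Function.comp_apply, Pi.mul_apply, ← hA]
  rw [h4]
  have hc := KB_c1 (x := x) hy
  have hy' : y ≠ 0 := hy.ne'
  rw [hc]
  field_simp
  ring

/-- the five bounds for a kernel of the form `K √y q φ(A, x q)` -/
theorem KB_main {Φ : ℝ × ℝ → ℝ} (h : ContDiffOn ℝ ∞ Φ {p | 0 < p.1}) (E : ℝ → ℝ)
    (hE : ∀ A c : ℝ, 0 < A → |c| ≤ 1 →
      |Φ (A, c)| ≤ E A ∧ |fderiv ℝ Φ (A, c) (0, 1)| ≤ E A ∧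
      |fderiv ℝ (fun p => fderiv ℝ Φ p (0, 1)) (A, c) (0, 1)| ≤ E A ∧
      |A * fderiv ℝ Φ (A, c) (1, 0)| ≤ E A ∧
      |A * fderiv ℝ (fun p => fderiv ℝ Φ p (0, 1)) (A, c) (1, 0)| ≤ E A)
    (K : ℝ) (hK : |K| ≤ 1) (f : ℝ → ℝ → ℝ → ℝ)
    (hf : ∀ s x y : ℝ, 0 < y →
      f s x y = K * √y * KB_q x y * Φ (Real.exp (2 * s) / (25 * y), x * KB_q x y))
    (s x y : ℝ) (hy : 0 < y) :
    |f s x y| ≤ √y * KB_q x y * (11 * E (Real.exp (2 * s) / (25 * y))) ∧
    |dX f s x y| ≤ √y * KB_q x y ^ 2 * (11 * E (Real.exp (2 * s) / (25 * y))) ∧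
    |dX (dX f) s x y| ≤ √y * KB_q x y ^ 3 * (11 * E (Real.exp (2 * s) / (25 * y))) ∧
    |dY f s x y| ≤ √y * y⁻¹ * KB_q x y * (11 * E (Real.exp (2 * s) / (25 * y))) ∧
    |dX (dY f) s x y| ≤ √y * y⁻¹ * KB_q x y ^ 2 * (11 * E (Real.exp (2 * s) / (25 * y))) := by
  set A : ℝ := Real.exp (2 * s) / (25 * y) with hA
  have hA0 : 0 < A := by positivity
  -- the functions of `c`
  set Φ2 : ℝ × ℝ → ℝ := fun p => fderiv ℝ Φ p (0, 1) with hΦ2
  set Φ1 : ℝ × ℝ → ℝ := fun p => fderiv ℝ Φ p (1, 0) with hΦ1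
  have h2s : ContDiffOn ℝ ∞ Φ2 {p | 0 < p.1} := KB_par h (0, 1)
  have h1s : ContDiffOn ℝ ∞ Φ1 {p | 0 < p.1} := KB_par h (1, 0)
  have e0 : ∀ c, HasDerivAt (fun t => Φ (A, t)) (Φ2 (A, c)) c := fun c => KB_d2 h hA0 c
  have e2 : ∀ c, HasDerivAt (fun t => Φ2 (A, t)) (fderiv ℝ Φ2 (A, c) (0, 1)) c :=
    fun c => KB_d2 h2s hA0 c
  have e1 : ∀ c, HasDerivAt (fun t => Φ1 (A, t)) (fderiv ℝ Φ2 (A, c) (1, 0)) c := by
    intro c
    have := KB_d2 h1s hA0 c
    rwa [hΦ1, KB_sym h hA0 c (1, 0) (0, 1)] at this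
  set P1 : ℝ → ℝ := fun c => -c * Φ (A, c) + (1 - c ^ 2) * Φ2 (A, c) with hP1
  have hP1d : ∀ c, HasDerivAt P1 (-Φ (A, c) - 3 * c * Φ2 (A, c) +
      (1 - c ^ 2) * fderiv ℝ Φ2 (A, c) (0, 1)) c := by
    intro c
    have a1 : HasDerivAt (fun c : ℝ => -c) (-1) c := (hasDerivAt_id c).neg
    have a2 : HasDerivAt (fun c : ℝ => 1 - c ^ 2) (-(2 * c)) c := by
      simpa using (hasDerivAt_pow 2 c).const_sub 1
    refine ((a1.mul (e0 c)).add (a2.mul (e2 c))).congr_deriv ?_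
    ring
  set P3 : ℝ → ℝ := fun c => Φ (A, c) / 2 - (1 - c ^ 2) * Φ (A, c) - A * Φ1 (A, c) -
    c * (1 - c ^ 2) * Φ2 (A, c) with hP3
  have hP3d : ∀ c, HasDerivAt P3 (Φ2 (A, c) / 2 + 2 * c * Φ (A, c) - (1 - c ^ 2) * Φ2 (A, c) -
      A * fderiv ℝ Φ2 (A, c) (1, 0) - (1 - 3 * c ^ 2) * Φ2 (A, c) -
      c * (1 - c ^ 2) * fderiv ℝ Φ2 (A, c) (0, 1)) c := by
    intro c
    have a1 : HasDerivAt (fun c : ℝ => c * (1 - c ^ 2)) (1 - 3 * c ^ 2) c := by
      have := (hasDerivAt_id c).mul ((hasDerivAt_pow 2 c).const_sub 1)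
      refine this.congr_deriv ?_
      simp
      ring
    have a2 : HasDerivAt (fun c : ℝ => 1 - c ^ 2) (-(2 * c)) c := by
      simpa using (hasDerivAt_pow 2 c).const_sub 1
    refine (((((e0 c).div_const 2).sub (a2.mul (e0 c))).sub ((e1 c).const_mul A)).sub
      (a1.mul (e2 c))).congr_deriv ?_
    ring
  -- the derivatives of `f`
  have f0 : ∀ t, f s t y = K * √y * KB_q t y ^ (0 + 1) * Φ (A, t * KB_q t y) := by
    intro t
    rw [hf s t y hy]
    ring
  have f1 : ∀ t, dX f s t y = K * √y * KB_q t y ^ (1 + 1) * P1 (t * KB_q t y) := by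
    intro t
    rw [dX]
    have b1 := KB_GX (K * √y) hy 0 (fun c => Φ (A, c)) _ t (e0 (t * KB_q t y))
    have b2 : (fun t => f s t y) = fun t => K * √y * KB_q t y ^ (0 + 1) * Φ (A, t * KB_q t y) :=
      funext f0
    rw [b2, b1.deriv]
    simp only [hP1]
    push_cast
    ring
  have f2 : dX (dX f) s x y = K * √y * KB_q x y ^ 3 * (-2 * (x * KB_q x y) * P1 (x * KB_q x y) +
      (1 - (x * KB_q x y) ^ 2) * (-Φ (A, (x * KB_q x y)) - 3 * (x * KB_q x y) *
        Φ2 (A, (x * KB_q x y)) +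
      (1 - (x * KB_q x y) ^ 2) * fderiv ℝ Φ2 (A, (x * KB_q x y)) (0, 1))) := by
    rw [dX]
    have b1 := KB_GX (K * √y) hy 1 P1 _ x (hP1d (x * KB_q x y))
    have b2 : (fun t => dX f s t y) = fun t => K * √y * KB_q t y ^ (1 + 1) * P1 (t * KB_q t y) :=
      funext f1
    rw [b2, b1.deriv]
    push_cast
    ring
  have f3 : ∀ t, dY f s t y = K * √y * y⁻¹ * KB_q t y ^ (0 + 1) * P3 (t * KB_q t y) := by
    intro t
    rw [dY]
    have b1 := KB_GY h K s t hy
    have b2 : (fun u => f s t u) =ᶠ[nhds y] fun u => K * √u * KB_q t u *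
        Φ (Real.exp (2 * s) / (25 * u), t * KB_q t u) := by
      filter_upwards [lt_mem_nhds hy] with u hu
      exact hf s t u hu
    rw [b2.deriv_eq, b1.deriv]
    simp only [hP3, hΦ1, hΦ2, ← hA]
    ring
  have f4 : dX (dY f) s x y = K * √y * y⁻¹ * KB_q x y ^ 2 * (-(x * KB_q x y) *
      P3 (x * KB_q x y) + (1 - (x * KB_q x y) ^ 2) * (Φ2 (A, (x * KB_q x y)) / 2 +
      2 * (x * KB_q x y) * Φ (A, (x * KB_q x y)) -
      (1 - (x * KB_q x y) ^ 2) * Φ2 (A, (x * KB_q x y)) -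
      A * fderiv ℝ Φ2 (A, (x * KB_q x y)) (1, 0) - (1 - 3 * (x * KB_q x y) ^ 2) *
        Φ2 (A, (x * KB_q x y)) -
      (x * KB_q x y) * (1 - (x * KB_q x y) ^ 2) *
        fderiv ℝ Φ2 (A, (x * KB_q x y)) (0, 1))) := by
    rw [dX]
    have b1 := KB_GX (K * √y * y⁻¹) hy 0 P3 _ x (hP3d (x * KB_q x y))
    have b2 : (fun t => dY f s t y) = fun t => K * √y * y⁻¹ * KB_q t y ^ (0 + 1) *
        P3 (t * KB_q t y) := funext f3
    rw [b2, b1.deriv]
    push_cast
    ring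
  -- the bounds
  have hc := KB_c2 (x := x) hy
  set c : ℝ := x * KB_q x y with hcdef
  obtain ⟨g0, g1, g2, g3, g4⟩ := hE A c hA0 hc
  have hE0 : 0 ≤ E A := (abs_nonneg _).trans g0
  have hc2 : |1 - c ^ 2| ≤ 1 := by
    rw [abs_le]
    have : c ^ 2 ≤ 1 := by
      rw [← sq_abs]
      nlinarith [abs_nonneg c]
    constructor <;> nlinarith [sq_nonneg c]
  have hc3 : |1 - 3 * c ^ 2| ≤ 2 := by
    rw [abs_le]
    have : c ^ 2 ≤ 1 := by
      rw [← sq_abs]
      nlinarith [abs_nonneg c]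
    constructor <;> nlinarith [sq_nonneg c]
  have hq := KB_q_pos (x := x) hy
  have mulb : ∀ u v a b : ℝ, |u| ≤ a → |v| ≤ b → 0 ≤ a → |u * v| ≤ a * b := by
    intro u v a b h1 h2 h3
    rw [abs_mul]
    exact mul_le_mul h1 h2 (abs_nonneg _) h3
  have p1 : |c * Φ (A, c)| ≤ 1 * E A := mulb _ _ _ _ hc g0 (by norm_num)
  have p2 : |(1 - c ^ 2) * Φ2 (A, c)| ≤ 1 * E A := mulb _ _ _ _ hc2 g1 (by norm_num)
  have p3 : |c * Φ2 (A, c)| ≤ 1 * E A := mulb _ _ _ _ hc g1 (by norm_num)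
  have p4 : |(1 - c ^ 2) * fderiv ℝ Φ2 (A, c) (0, 1)| ≤ 1 * E A :=
    mulb _ _ _ _ hc2 g2 (by norm_num)
  have p5 : |(1 - c ^ 2) * Φ (A, c)| ≤ 1 * E A := mulb _ _ _ _ hc2 g0 (by norm_num)
  have p6 : |(1 - 3 * c ^ 2) * Φ2 (A, c)| ≤ 2 * E A := mulb _ _ _ _ hc3 g1 (by norm_num)
  have p7 : |c * ((1 - c ^ 2) * Φ2 (A, c))| ≤ 1 * (1 * E A) := mulb _ _ _ _ hc p2 (by norm_num)
  have p8 : |c * ((1 - c ^ 2) * fderiv ℝ Φ2 (A, c) (0, 1))| ≤ 1 * (1 * E A) :=
    mulb _ _ _ _ hc p4 (by norm_num)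
  rw [abs_le] at p1 p2 p3 p4 p5 p6 p7 p8
  have g0' := abs_le.mp g0
  have g1' := abs_le.mp g1
  have g2' := abs_le.mp g2
  have g3' := abs_le.mp g3
  have g4' := abs_le.mp g4
  have k1 : |P1 c| ≤ 2 * E A := by
    rw [abs_le]
    simp only [hP1]
    constructor <;> linarith [p1.1, p1.2, p2.1, p2.2]
  have k2 : |(-Φ (A, c) - 3 * c * Φ2 (A, c) + (1 - c ^ 2) * fderiv ℝ Φ2 (A, c) (0, 1))| ≤
      5 * E A := by
    rw [abs_le]
    constructor <;> linarith [p3.1, p3.2, p4.1, p4.2, g0'.1, g0'.2]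
  have k3 : |P3 c| ≤ 7 / 2 * E A := by
    rw [abs_le]
    simp only [hP3]
    constructor <;> linarith [p5.1, p5.2, p7.1, p7.2, g0'.1, g0'.2, g3'.1, g3'.2]
  have k4 : |Φ2 (A, c) / 2 + 2 * c * Φ (A, c) - (1 - c ^ 2) * Φ2 (A, c) -
      A * fderiv ℝ Φ2 (A, c) (1, 0) - (1 - 3 * c ^ 2) * Φ2 (A, c) -
      c * (1 - c ^ 2) * fderiv ℝ Φ2 (A, c) (0, 1)| ≤ 15 / 2 * E A := by
    rw [abs_le]
    constructor <;> linarith [p1.1, p1.2, p2.1, p2.2, p6.1, p6.2, p8.1, p8.2, g1'.1, g1'.2,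
      g4'.1, g4'.2]
  have fin : ∀ u a : ℝ, 0 ≤ a → |u| ≤ 11 * E A → |K * a * u| ≤ a * (11 * E A) := by
    intro u a ha hu
    rw [abs_mul, abs_mul, abs_of_nonneg ha]
    calc |K| * a * |u| ≤ 1 * a * |u| := by gcongr
      _ ≤ a * (11 * E A) := by rw [one_mul]; gcongr
  refine ⟨?_, ?_, ?_, ?_, ?_⟩
  · have := fin (Φ (A, c)) (√y * KB_q x y) (by positivity) (by linarith)
    rw [hf s x y hy, ← hcdef, ← hA]
    rw [← mul_assoc] at this
    exact this
  · have := fin (P1 c) (√y * KB_q x y ^ 2) (by positivity) (by linarith)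
    rw [f1 x, ← hcdef]
    rw [← mul_assoc] at this
    exact this
  · have k5 : |(-2 * c * P1 c + (1 - c ^ 2) * (-Φ (A, c) - 3 * c * Φ2 (A, c) +
        (1 - c ^ 2) * fderiv ℝ Φ2 (A, c) (0, 1)))| ≤ 11 * E A := by
      have a1 := mulb _ _ _ _ hc k1 (by norm_num)
      have a2 := mulb _ _ _ _ hc2 k2 (by norm_num)
      rw [abs_le] at a1 a2 ⊢
      constructor <;> linarith [a1.1, a1.2, a2.1, a2.2]
    have := fin _ (√y * KB_q x y ^ 3) (by positivity) k5
    rw [f2]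
    rw [← mul_assoc] at this
    exact this
  · have := fin (P3 c) (√y * y⁻¹ * KB_q x y) (by positivity) (by linarith)
    rw [f3 x, ← hcdef]
    rw [← mul_assoc, ← mul_assoc] at this
    simpa using this
  · have k5 : |(-c * P3 c + (1 - c ^ 2) * (Φ2 (A, c) / 2 + 2 * c * Φ (A, c) -
        (1 - c ^ 2) * Φ2 (A, c) -
        A * fderiv ℝ Φ2 (A, c) (1, 0) - (1 - 3 * c ^ 2) * Φ2 (A, c) -
        c * (1 - c ^ 2) * fderiv ℝ Φ2 (A, c) (0, 1)))| ≤ 11 * E A := by
      have a1 := mulb _ _ _ _ hc k3 (by norm_num)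
      have a2 := mulb _ _ _ _ hc2 k4 (by norm_num)
      rw [abs_le] at a1 a2 ⊢
      constructor <;> linarith [a1.1, a1.2, a2.1, a2.2]
    have := fin _ (√y * y⁻¹ * KB_q x y ^ 2) (by positivity) k5
    rw [f4]
    rw [← mul_assoc, ← mul_assoc] at this
    exact this

/-- `√y √A = e^s / 5` -/
theorem KB_sq {s y : ℝ} (hy : 0 < y) : √y * √(Real.exp (2 * s) / (25 * y)) = Real.exp s / 5 := by
  rw [← Real.sqrt_mul hy.le]
  have h1 : y * (Real.exp (2 * s) / (25 * y)) = (Real.exp s / 5) ^ 2 := by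
    have h2 : Real.exp (2 * s) = Real.exp s ^ 2 := by
      rw [← Real.exp_nat_mul]
      norm_num
    rw [h2]
    field_simp
    norm_num
  rw [h1, Real.sqrt_sq (by positivity)]

/-- the final form of the bounds -/
theorem KB_fin {Φ : ℝ × ℝ → ℝ} (h : ContDiffOn ℝ ∞ Φ {p | 0 < p.1}) (C B : ℝ) (hC : 0 ≤ C)
    (hB : 0 ≤ B)
    (hE : ∀ A c : ℝ, 0 < A → |c| ≤ 1 →
      |Φ (A, c)| ≤ C * B * √A * (1 + A) ^ 2 ∧
      |fderiv ℝ Φ (A, c) (0, 1)| ≤ C * B * √A * (1 + A) ^ 2 ∧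
      |fderiv ℝ (fun p => fderiv ℝ Φ p (0, 1)) (A, c) (0, 1)| ≤ C * B * √A * (1 + A) ^ 2 ∧
      |A * fderiv ℝ Φ (A, c) (1, 0)| ≤ C * B * √A * (1 + A) ^ 2 ∧
      |A * fderiv ℝ (fun p => fderiv ℝ Φ p (0, 1)) (A, c) (1, 0)| ≤ C * B * √A * (1 + A) ^ 2)
    (K : ℝ) (hK : |K| ≤ 1) (f : ℝ → ℝ → ℝ → ℝ)
    (hf : ∀ s x y : ℝ, 0 < y →
      f s x y = K * √y * KB_q x y * Φ (Real.exp (2 * s) / (25 * y), x * KB_q x y))
    (D : ℝ) (hD : 11 * C ≤ D) (s x y : ℝ) (hy : 0 < y) :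
    let M := D * B * Real.exp s * (1 + Real.exp (2 * s) / (25 * y)) ^ 4
    let r := √(x ^ 2 + y ^ 2)
    |f s x y| ≤ M / r ∧ |dX f s x y| ≤ M / r ^ 2 ∧ |dX (dX f) s x y| ≤ M / r ^ 3 ∧
    |dY f s x y| ≤ M / (y * r) ∧ |dX (dY f) s x y| ≤ M / (y * r ^ 2) := by
  intro M r
  obtain ⟨h1, h2, h3, h4, h5⟩ := KB_main h (fun A => C * B * √A * (1 + A) ^ 2) hE K hK f hf s x y hy
  set A : ℝ := Real.exp (2 * s) / (25 * y) with hA
  have hA0 : 0 < A := by positivity
  have hq := KB_q_pos (x := x) hy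
  have hqr : KB_q x y = r⁻¹ := rfl
  have key : √y * (11 * (C * B * √A * (1 + A) ^ 2)) ≤ M := by
    have e1 : √y * (11 * (C * B * √A * (1 + A) ^ 2)) =
        (√y * √A) * (11 * C * B * (1 + A) ^ 2) := by ring
    rw [e1, hA, KB_sq hy, ← hA]
    have e2 : (1 + A) ^ 2 ≤ (1 + A) ^ 4 := pow_le_pow_right₀ (by linarith) (by norm_num)
    have e3 : 11 * C * B ≤ D * B := mul_le_mul_of_nonneg_right hD hB
    have hs := Real.exp_pos s
    calc Real.exp s / 5 * (11 * C * B * (1 + A) ^ 2)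
        ≤ Real.exp s * (D * B * (1 + A) ^ 4) := by
          apply mul_le_mul (by linarith) _ (by positivity) hs.le
          exact mul_le_mul e3 e2 (by positivity) (by nlinarith)
      _ = M := by
          simp only [M]
          ring
  have hmul : ∀ w : ℝ, 0 ≤ w → √y * w * (11 * (C * B * √A * (1 + A) ^ 2)) ≤ M * w := by
    intro w hw
    calc _ = (√y * (11 * (C * B * √A * (1 + A) ^ 2))) * w := by ring
      _ ≤ _ := mul_le_mul_of_nonneg_right key hw
  refine ⟨?_, ?_, ?_, ?_, ?_⟩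
  · refine h1.trans ((hmul _ hq.le).trans (le_of_eq ?_))
    rw [hqr, div_eq_mul_inv]
  · refine h2.trans ((hmul _ (by positivity)).trans (le_of_eq ?_))
    rw [hqr, div_eq_mul_inv, inv_pow]
  · refine h3.trans ((hmul _ (by positivity)).trans (le_of_eq ?_))
    rw [hqr, div_eq_mul_inv, inv_pow]
  · refine h4.trans ?_
    have := hmul (y⁻¹ * KB_q x y) (by positivity)
    rw [← mul_assoc (√y)] at this
    refine this.trans (le_of_eq ?_)
    rw [hqr, div_eq_mul_inv, mul_inv]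
  · refine h5.trans ?_
    have := hmul (y⁻¹ * KB_q x y ^ 2) (by positivity)
    rw [← mul_assoc (√y)] at this
    refine this.trans (le_of_eq ?_)
    rw [hqr, div_eq_mul_inv, mul_inv, inv_pow]

theorem KB_B {g : ℝ → ℝ} {B : ℝ} (h : Bd 4 B g) : 0 ≤ B :=
  (abs_nonneg _).trans (h 0 (by norm_num) 0)

theorem KB (hNS : NS_stmt) (hNB : NB_stmt) : KB_stmt := by
  obtain ⟨C, hC, hN⟩ := hNB
  refine ⟨11 * (C + 4), by positivity, ?_⟩
  intro g B hg hB f hf s x y hy
  have hB0 := KB_B hB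
  rcases hf with rfl | rfl
  · have hs : ContDiffOn ℝ ∞ (fun p : ℝ × ℝ => NN g p.1 p.2) {p | 0 < p.1} := hNS g hg
    refine KB_fin hs C B hC.le hB0 ?_ (1 / (5 * Real.pi)) ?_ (k1 g) ?_ (11 * (C + 4))
      (by linarith) s x y hy
    · intro A c hA hc
      obtain ⟨n0, n1, n2, n3, n4⟩ := hN g B hg hB A c hA hc
      have d1 : ∀ a t : ℝ, 0 < a → deriv (fun u => NN g a u) t =
          fderiv ℝ (fun p : ℝ × ℝ => NN g p.1 p.2) (a, t) (0, 1) :=
        fun a t ha => (KB_d2 hs ha t).deriv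
      have d2 : deriv (fun t => deriv (fun u => NN g A u) t) c =
          fderiv ℝ (fun p => fderiv ℝ (fun p : ℝ × ℝ => NN g p.1 p.2) p (0, 1)) (A, c) (0, 1) := by
        have e1 : (fun t => deriv (fun u => NN g A u) t) = fun t =>
            fderiv ℝ (fun p : ℝ × ℝ => NN g p.1 p.2) (A, t) (0, 1) := funext fun t => d1 A t hA
        rw [e1]
        exact (KB_d2 (KB_par hs (0, 1)) hA c).deriv
      have d3 : deriv (fun a => NN g a c) A =
          fderiv ℝ (fun p : ℝ × ℝ => NN g p.1 p.2) (A, c) (1, 0) := (KB_d1 hs hA c).deriv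
      have d4 : deriv (fun a => deriv (fun t => NN g a t) c) A =
          fderiv ℝ (fun p => fderiv ℝ (fun p : ℝ × ℝ => NN g p.1 p.2) p (0, 1)) (A, c) (1, 0) := by
        have e1 : (fun a => deriv (fun t => NN g a t) c) =ᶠ[nhds A] fun a =>
            fderiv ℝ (fun p : ℝ × ℝ => NN g p.1 p.2) (a, c) (0, 1) := by
          filter_upwards [lt_mem_nhds hA] with a ha
          exact d1 a c ha
        rw [e1.deriv_eq]
        exact (KB_d1 (KB_par hs (0, 1)) hA c).deriv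
      rw [d1 A c hA] at n1
      rw [d2] at n2
      rw [d3] at n3
      rw [d4] at n4
      refine ⟨n0.trans ?_, n1, n2, ?_, ?_⟩
      · have : (1 : ℝ) ≤ (1 + A) ^ 2 := one_le_pow₀ (by linarith)
        have h0 : 0 ≤ C * B * √A := by positivity
        nlinarith
      · rwa [abs_mul, abs_of_pos hA]
      · rwa [abs_mul, abs_of_pos hA]
    · rw [abs_of_pos (by positivity), div_le_one (by positivity)]
      nlinarith [Real.pi_gt_three]
    · intro s x y hy
      simp only [k1, KB_q, div_eq_mul_inv, mul_inv]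
      ring
  · -- `b1`
    have hg1 : ∀ a, HasDerivAt g (deriv g a) a := fun a =>
      (hg.smooth.differentiable (by simp) a).hasDerivAt
    have hgs : ContDiff ℝ ∞ (deriv g) := by
      have := hg.smooth
      rw [contDiff_infty_iff_deriv] at this
      exact this.2
    have hg2 : ∀ a, HasDerivAt (deriv g) (deriv (deriv g) a) a := fun a =>
      (hgs.differentiable (by simp) a).hasDerivAt
    have hb0 : ∀ a, |g a| ≤ B := fun a => by
      have := hB 0 (by norm_num) a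
      rwa [iteratedDeriv_zero] at this
    have hb1 : ∀ a, |deriv g a| ≤ B := fun a => by
      have := hB 1 (by norm_num) a
      rwa [iteratedDeriv_one] at this
    have hb2 : ∀ a, |deriv (deriv g) a| ≤ B := fun a => by
      have := hB 2 (by norm_num) a
      rwa [iteratedDeriv_succ, iteratedDeriv_one] at this
    have hz0 : ∀ a, a < 1 → g a = 0 := fun a ha => hg.lo a ha.le
    have hz1 : ∀ a, a < 1 → deriv g a = 0 := fun a ha => by
      have e : g =ᶠ[nhds a] fun _ => 0 := by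
        filter_upwards [gt_mem_nhds ha] with b hb
        exact hz0 b hb
      rw [e.deriv_eq, deriv_const]
    have hz2 : ∀ a, a < 1 → deriv (deriv g) a = 0 := fun a ha => by
      have e : deriv g =ᶠ[nhds a] fun _ => 0 := by
        filter_upwards [gt_mem_nhds ha] with b hb
        exact hz1 b hb
      rw [e.deriv_eq, deriv_const]
    have hs : ContDiffOn ℝ ∞ (fun p : ℝ × ℝ => g (p.1 * (1 - p.2 ^ 2))) {p | 0 < p.1} := by
      apply ContDiff.contDiffOn
      exact hg.smooth.comp (contDiff_fst.mul (contDiff_const.sub (contDiff_snd.pow 2)))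
    refine KB_fin hs 4 B (by norm_num) hB0 ?_ (1 / 5) ?_ (b1 g) ?_ (11 * (C + 4))
      (by linarith) s x y hy
    · intro A c hA hc
      set u : ℝ := A * (1 - c ^ 2) with hu
      have hc2 : c ^ 2 ≤ 1 := by
        rw [← sq_abs]
        nlinarith [abs_nonneg c]
      have i1 : ∀ a t : ℝ, HasDerivAt (fun t : ℝ => a * (1 - t ^ 2)) (a * (-(2 * t))) t := by
        intro a t
        have := ((hasDerivAt_pow 2 t).const_sub 1).const_mul a
        simpa using this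
      have i2 : ∀ a t : ℝ, HasDerivAt (fun a : ℝ => a * (1 - t ^ 2)) (1 - t ^ 2) a := by
        intro a t
        simpa using (hasDerivAt_id a).mul_const (1 - t ^ 2)
      have d1 : ∀ a t : ℝ, 0 < a → fderiv ℝ (fun p : ℝ × ℝ => g (p.1 * (1 - p.2 ^ 2))) (a, t) (0, 1) =
          deriv g (a * (1 - t ^ 2)) * (a * (-(2 * t))) := by
        intro a t ha
        have e1 := KB_d2 hs ha t
        have e2 : HasDerivAt (fun t => g (a * (1 - t ^ 2)))
            (deriv g (a * (1 - t ^ 2)) * (a * (-(2 * t)))) t := (hg1 _).comp t (i1 a t)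
        exact e1.unique e2
      have d2 : fderiv ℝ (fun p => fderiv ℝ (fun p : ℝ × ℝ => g (p.1 * (1 - p.2 ^ 2))) p (0, 1))
          (A, c) (0, 1) = deriv (deriv g) u * (4 * A ^ 2 * c ^ 2) - 2 * A * deriv g u := by
        have e1 := KB_d2 (KB_par hs (0, 1)) hA c
        have e3 : (fun t => fderiv ℝ (fun p : ℝ × ℝ => g (p.1 * (1 - p.2 ^ 2))) (A, t) (0, 1)) =
            fun t => deriv g (A * (1 - t ^ 2)) * (A * (-(2 * t))) := funext fun t => d1 A t hA
        have e2 : HasDerivAt (fun t => deriv g (A * (1 - t ^ 2)) * (A * (-(2 * t))))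
            (deriv (deriv g) u * (4 * A ^ 2 * c ^ 2) - 2 * A * deriv g u) c := by
          have j1 := (hg2 _).comp c (i1 A c)
          have j2 : HasDerivAt (fun t : ℝ => A * (-(2 * t))) (A * (-2)) c := by
            have := (((hasDerivAt_id c).const_mul 2).neg).const_mul A
            simpa using this
          refine (j1.mul j2).congr_deriv ?_
          simp only [Function.comp_apply, ← hu]
          ring
        rw [e3] at e1
        exact e1.unique e2
      have d3 : fderiv ℝ (fun p : ℝ × ℝ => g (p.1 * (1 - p.2 ^ 2))) (A, c) (1, 0) =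
          deriv g u * (1 - c ^ 2) := by
        have e1 := KB_d1 hs hA c
        have e2 : HasDerivAt (fun a => g (a * (1 - c ^ 2))) (deriv g u * (1 - c ^ 2)) A :=
          (hg1 _).comp A (i2 A c)
        exact e1.unique e2
      have d4 : fderiv ℝ (fun p => fderiv ℝ (fun p : ℝ × ℝ => g (p.1 * (1 - p.2 ^ 2))) p (0, 1))
          (A, c) (1, 0) = -(2 * c) * deriv g u - 2 * c * A * (1 - c ^ 2) * deriv (deriv g) u := by
        have e1 := KB_d1 (KB_par hs (0, 1)) hA c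
        have e3 : (fun a => fderiv ℝ (fun p : ℝ × ℝ => g (p.1 * (1 - p.2 ^ 2))) (a, c) (0, 1))
            =ᶠ[nhds A] fun a => deriv g (a * (1 - c ^ 2)) * (a * (-(2 * c))) := by
          filter_upwards [lt_mem_nhds hA] with a ha
          exact d1 a c ha
        have e2 : HasDerivAt (fun a => deriv g (a * (1 - c ^ 2)) * (a * (-(2 * c))))
            (-(2 * c) * deriv g u - 2 * c * A * (1 - c ^ 2) * deriv (deriv g) u) A := by
          have j1 := (hg2 _).comp A (i2 A c)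
          have j2 : HasDerivAt (fun a : ℝ => a * (-(2 * c))) (-(2 * c)) A := by
            simpa using (hasDerivAt_id A).mul_const (-(2 * c))
          refine (j1.mul j2).congr_deriv ?_
          simp only [Function.comp_apply, ← hu]
          ring
        exact (e1.congr_of_eventuallyEq e3.symm).unique e2
      rw [d1 A c hA, d2, d3, d4, ← hu]
      have hbd : ∀ G : ℝ → ℝ, (∀ a, |G a| ≤ B) → (∀ a, a < 1 → G a = 0) → |G u| ≤ B * √A := by
        intro G h1 h2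
        rcases lt_or_ge A 1 with h3 | h3
        · have h4 : u < 1 := by
            rw [hu]
            nlinarith [sq_nonneg c]
          rw [h2 u h4, abs_zero]
          positivity
        · have h4 : (1 : ℝ) ≤ √A := by
            rw [Real.one_le_sqrt]
            exact h3
          nlinarith [h1 u]
      have q0 := hbd g hb0 hz0
      have q1 := hbd (deriv g) hb1 hz1
      have q2 := hbd (deriv (deriv g)) hb2 hz2
      set b : ℝ := B * √A with hb
      have hb' : 0 ≤ b := by positivity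
      have hgoal : 4 * B * √A * (1 + A) ^ 2 = 4 * b * (1 + A) ^ 2 := by rw [hb]; ring
      rw [hgoal]
      have mulb : ∀ u v a b : ℝ, |u| ≤ a → |v| ≤ b → 0 ≤ a → |u * v| ≤ a * b := by
        intro u v a b h1 h2 h3
        rw [abs_mul]
        exact mul_le_mul h1 h2 (abs_nonneg _) h3
      have hc3 : |1 - c ^ 2| ≤ 1 := by
        rw [abs_le]
        constructor <;> nlinarith [sq_nonneg c]
      have hc4 : |c ^ 2| ≤ 1 := by
        rw [abs_of_nonneg (sq_nonneg c)]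
        exact hc2
      have hA1 : 0 ≤ b * A := by positivity
      have hA2 : 0 ≤ b * A ^ 2 := by positivity
      refine ⟨?_, ?_, ?_, ?_, ?_⟩
      · nlinarith
      · have t1 := mulb _ _ _ _ hc q1 (by norm_num)
        have t2 : deriv g u * (A * (-(2 * c))) = (-(2 * A)) * (c * deriv g u) := by ring
        rw [t2, abs_mul, abs_neg, abs_of_pos (by positivity)]
        have t3 := mul_le_mul_of_nonneg_left t1 (show (0 : ℝ) ≤ 2 * A by positivity)
        nlinarith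
      · have t1 := mulb _ _ _ _ hc4 q2 (by norm_num)
        have t2 := mul_le_mul_of_nonneg_left t1 (show (0 : ℝ) ≤ 4 * A ^ 2 by positivity)
        have t3 := mul_le_mul_of_nonneg_left q1 (show (0 : ℝ) ≤ 2 * A by positivity)
        have t4 : |deriv (deriv g) u * (4 * A ^ 2 * c ^ 2) - 2 * A * deriv g u| ≤
            4 * A ^ 2 * |c ^ 2 * deriv (deriv g) u| + 2 * A * |deriv g u| := by
          refine (abs_sub _ _).trans (le_of_eq ?_)
          rw [show deriv (deriv g) u * (4 * A ^ 2 * c ^ 2) =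
            (4 * A ^ 2) * (c ^ 2 * deriv (deriv g) u) by ring, abs_mul, abs_mul (2 * A),
            abs_of_pos (show (0 : ℝ) < 4 * A ^ 2 by positivity),
            abs_of_pos (show (0 : ℝ) < 2 * A by positivity)]
        nlinarith
      · have t1 := mulb _ _ _ _ hc3 q1 (by norm_num)
        have t2 := mul_le_mul_of_nonneg_left t1 hA.le
        rw [show A * (deriv g u * (1 - c ^ 2)) = A * ((1 - c ^ 2) * deriv g u) by ring,
          abs_mul, abs_of_pos hA]
        nlinarith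
      · have t1 := mulb _ _ _ _ hc q1 (by norm_num)
        have t2 := mul_le_mul_of_nonneg_left t1 (show (0 : ℝ) ≤ 2 * A by positivity)
        have t3 := mulb _ _ _ _ hc (mulb _ _ _ _ hc3 q2 (by norm_num)) (by norm_num)
        have t4 := mul_le_mul_of_nonneg_left t3 (show (0 : ℝ) ≤ 2 * A ^ 2 by positivity)
        have t5 : |A * (-(2 * c) * deriv g u - 2 * c * A * (1 - c ^ 2) * deriv (deriv g) u)| ≤
            2 * A * |c * deriv g u| + 2 * A ^ 2 * |c * ((1 - c ^ 2) * deriv (deriv g) u)| := by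
          rw [show A * (-(2 * c) * deriv g u - 2 * c * A * (1 - c ^ 2) * deriv (deriv g) u) =
            -((2 * A) * (c * deriv g u) + (2 * A ^ 2) * (c * ((1 - c ^ 2) * deriv (deriv g) u))) by
              ring, abs_neg]
          refine (abs_add_le _ _).trans (le_of_eq ?_)
          rw [abs_mul (2 * A), abs_mul (2 * A ^ 2),
            abs_of_pos (show (0 : ℝ) < 2 * A ^ 2 by positivity),
            abs_of_pos (show (0 : ℝ) < 2 * A by positivity)]
        nlinarith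
    · rw [abs_of_pos (by norm_num)]
      norm_num
    · intro s x y hy
      have e1 := KB_c1 (x := x) hy
      have e2 : x ^ 2 + y ^ 2 ≠ 0 := by positivity
      have e3 : KB_q x y ^ 2 = (x ^ 2 + y ^ 2)⁻¹ := by
        rw [KB_q, inv_pow, Real.sq_sqrt (by positivity)]
      have e4 : Real.exp (2 * s) * y / (25 * (x ^ 2 + y ^ 2)) =
          Real.exp (2 * s) / (25 * y) * (1 - (x * KB_q x y) ^ 2) := by
        rw [e1, e3]
        field_simp
      simp only [b1]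
      rw [e4]
      simp only [KB_q, div_eq_mul_inv, mul_inv]
      ring

end SF
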