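import Pool.Agent.helper68.SF.SpecF

/-!
# Module sf:FN2 (helper28): the final theorem for the curve `a⁴ b³`
-/

set_option autoImplicit false

namespace SF

open Pool.Agent.helper72.Sq

/-- the assembly for one metric in which the law fails -/
theorem FN2_one (hTZ : TZ_stmt) (hINF : INF_stmt)
    (ρ : F2 →* Matrix.SpecialLinearGroup (Fin 2) ℝ) (hP : Adm (trTri ρ (ga, gb)))
    (hW : ¬ WL ρ (ga ^ 4 * gb ^ 3)) : FN2_stmt := by
  refine ⟨trTri ρ (ga, gb), ρ, ⟨hP.x2, hP.y2, hP.z2, ?_⟩, rfl, rfl, rfl, ?_, ?_⟩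
  · have h := hP.kpos
    unfold kap at h
    linarith
  · have := hINF.1
    exact exists_enum (fun x : orb (ga ^ 4 * gb ^ 3) => cLen ρ x) (hTZ ρ hP).1.1
  · intro e he u v C
    by_contra hcon
    push Not at hcon
    exact hW ⟨e, he, u, v, C, hcon⟩

theorem FN2 (hSZ : SZ_stmt) (hAZ : AZ_stmt) (hTZ : TZ_stmt) (hRHO : RHO_stmt) (hMIR : MIR_stmt)
    (hINF : INF_stmt) : FN2_stmt := by
  obtain ⟨P, R, hP, hR, hA⟩ := hAZ
  have hQ : ¬ QL P := by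
    intro hQ
    obtain ⟨C, hC⟩ := hSZ P hP hQ
    obtain ⟨g, hg, h1⟩ := hA (C * R)
    exact absurd h1 (not_lt.mpr (hC g R hg hR))
  obtain ⟨ρ, hρ⟩ := hRHO P hP
  have hP' : Adm (trTri ρ (ga, gb)) := by rw [hρ]; exact hP
  by_cases hW : WL ρ (ga ^ 4 * gb ^ 3)
  · obtain ⟨h1, h2, -⟩ := hMIR ρ hP'
    refine FN2_one hTZ hINF (ρ.comp bet) h1 fun h3 => ?_
    have h4 := (hTZ ρ hP').2 hW (h2 h3)
    rw [hρ] at h4
    exact hQ h4
  · exact FN2_one hTZ hINF ρ hP' hW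

end SF
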